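import Mathlib
import Pool.Agent.TH53.PC2

set_option autoImplicit false

/-!
# A total clone whose interval of strong partial clones is countably infinite: the intervals
`I_D(C)` and `I_Str(C)` are neither both finite nor both of the cardinality of the continuum
-/

namespace Pool.Agent.Results.MP_0340c4_al.DichotomyFails

open Cardinal

/-- Partial functions on `Fin k` of arity `n + 1`. -/
abbrev PFun' (k n : ℕ) : Type := (Fin (n + 1) → Fin k) → Option (Fin k)

/-- Total functions on `Fin k` of arity `n + 1`. -/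
abbrev TFun (k n : ℕ) : Type := (Fin (n + 1) → Fin k) → Fin k

/-- `h` is the composition `f(g_0, ..., g_n)` of partial functions. -/
def IsComp {k n m : ℕ} (f : PFun' k n) (g : Fin (n + 1) → PFun' k m) (h : PFun' k m) : Prop :=
  ∀ x b, h x = some b ↔ ∃ y : Fin (n + 1) → Fin k, (∀ i, g i x = some (y i)) ∧ f y = some b

/-- A partial clone on `Fin k`: contains the projections, closed under composition. -/
def IsPartialClone {k : ℕ} (X : (n : ℕ) → Set (PFun' k n)) : Prop :=
  (∀ (n : ℕ) (i : Fin (n + 1)), (fun x => some (x i)) ∈ X n) ∧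
  (∀ (n m : ℕ) (f : PFun' k n) (g : Fin (n + 1) → PFun' k m) (h : PFun' k m),
    f ∈ X n → (∀ i, g i ∈ X m) → IsComp f g h → h ∈ X m)

/-- Closed under restriction of the domain. -/
def IsStrong {k : ℕ} (X : (n : ℕ) → Set (PFun' k n)) : Prop :=
  ∀ (n : ℕ) (g f : PFun' k n), g ∈ X n → (∀ x b, f x = some b → g x = some b) → f ∈ X n

/-- A total clone on `Fin k`. -/
def IsTotalClone {k : ℕ} (C : (n : ℕ) → Set (TFun k n)) : Prop :=
  (∀ (n : ℕ) (i : Fin (n + 1)), (fun x => x i) ∈ C n) ∧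
  (∀ (n m : ℕ) (f : TFun k n) (g : Fin (n + 1) → TFun k m),
    f ∈ C n → (∀ i, g i ∈ C m) → (fun x => f (fun i => g i x)) ∈ C m)

/-- The partial clones whose total part is `C`. -/
def ID {k : ℕ} (C : (n : ℕ) → Set (TFun k n)) : Set ((n : ℕ) → Set (PFun' k n)) :=
  {X | IsPartialClone X ∧ ∀ (n : ℕ) (f : TFun k n), f ∈ C n ↔ (fun x => some (f x)) ∈ X n}

/-- The strong partial clones whose total part is `C`. -/
def IStr {k : ℕ} (C : (n : ℕ) → Set (TFun k n)) : Set ((n : ℕ) → Set (PFun' k n)) :=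
  {X | X ∈ ID C ∧ IsStrong X}

/-- On a set with five elements there is a total clone `C` for which `I_Str(C)` is countably
infinite; hence `I_D(C)` and `I_Str(C)` are neither both finite nor both of the cardinality of the
continuum. -/
theorem result : ∃ (k : ℕ) (C : (n : ℕ) → Set (TFun k n)), 3 ≤ k ∧ IsTotalClone C ∧
    #(IStr C) = ℵ₀ ∧
    ¬ (((ID C).Finite ∧ (IStr C).Finite) ∨ (#(ID C) = 𝔠 ∧ #(IStr C) = 𝔠)) := by
  have hset : IStr Pool.Agent.TH53.PC.C = Pool.Agent.TH53.PC.Interval := by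
    ext X
    constructor
    · rintro ⟨⟨⟨h1, h2⟩, h4⟩, h3⟩
      exact ⟨⟨h1, h2, h3⟩, h4⟩
    · rintro ⟨⟨h1, h2, h3⟩, h4⟩
      exact ⟨⟨⟨h1, h2⟩, h4⟩, h3⟩
  have hcard : #(IStr Pool.Agent.TH53.PC.C) = ℵ₀ := by
    rw [hset]
    apply le_antisymm
    · exact Cardinal.le_aleph0_iff_set_countable.2 Pool.Agent.TH53.PC.interval_countable
    · exact Cardinal.aleph0_le_mk_iff.2 Pool.Agent.TH53.PC.interval_infinite.to_subtype
  refine ⟨5, Pool.Agent.TH53.PC.C, by norm_num,
    ⟨Pool.Agent.TH53.PC.C_proj, Pool.Agent.TH53.PC.C_comp⟩, hcard, ?_⟩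
  rintro (⟨_, h⟩ | ⟨_, h⟩)
  · rw [hset] at h
    exact Pool.Agent.TH53.PC.interval_infinite h
  · rw [hcard] at h
    exact absurd h Cardinal.aleph0_lt_continuum.ne

end Pool.Agent.Results.MP_0340c4_al.DichotomyFails
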